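import Pool.Agent.Lib.helper3.BishopE

set_option autoImplicit false
open MeasureTheory H3Bis

namespace Pool.Agent.Results.MP_a6f573_an.Counterexample

/-- There are a compact metric space `S`, an algebra `A` satisfying the standing hypotheses and an
extremal measure `μ` such that neither the closure of `E(μ)` nor `E(μ)` has a greatest element. -/
theorem result :
    ∃ (S : Type) (_ : MetricSpace S) (_ : CompactSpace S) (_ : MeasurableSpace S)
      (_ : BorelSpace S) (A : Subalgebra ℂ C(S, ℂ)) (μ : FiniteMeasure S),
      Bishop A ∧ Extremal A μ ∧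
      (¬ ∃ σ, Greatest A (Kset A μ) σ) ∧ (¬ ∃ σ, Greatest A (Eset A μ) σ) :=
  ⟨SS, inferInstance, inferInstance, inferInstance, inferInstance, AA, mup 1, bishop_AA,
    extremal_mup, fun ⟨σ, h⟩ => no_greatest _ subset_closure σ h,
    fun ⟨σ, h⟩ => no_greatest _ subset_rfl σ h⟩

end Pool.Agent.Results.MP_a6f573_an.Counterexample
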